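import Pool.Agent.W312.TP.Final

/-!
# MP_b5064f_lc: the complexity of TREE t-SPANNER on path graphs

For `t = 3` the problem restricted to path graphs is solvable in polynomial time (it is so even on
chordal graphs, by the result for MP_386785_lc). For every fixed `t ≥ 4` it is `NP`-complete.

The reduction for `t ≥ 4` is from 3SAT. Let `r = t / 2`. A big clique contains a path with `t` edges,
forced into the tree, whose middle is the centre of every solution; so every vertex of the clique has
distance at most `r` from the centre. It also contains pairs of vertices joined by forced paths with
`r - 1` edges (inner vertices outside the big clique): exactly one of the two is attached to the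
centre (true), the other one has distance `r` (false). A further vertex adjacent to three vertices of
the clique has to be attached to one which is true; and if it is forced to be attached to the first
of them, then the first is true or the two others are. The latter gadgets make copies of variables,
so every vertex is needed in only two gadgets, and the graph is the intersection graph of paths in a
tree. An edge is forced into the tree by triangles which are glued on it and on one another
`t - 1` times.

Proved by a team: helpers 790, 368, 392, 922 (gluing triangles), 371, 935, 369, 249, 101, 230, 98,
639, 103 (trees and distances), 557, 681, 924, 32 (path graphs), 179, 636, 315, 349 (3SAT, polynomial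
time), 947, 428, 999, 214 (membership in NP), 312 (reduction, definitions, assembly), and the helpers
of MP_386785_lc.
-/

set_option autoImplicit false

namespace Pool.Agent.Results.MP_b5064f_lc.PathGraphComplexity

open Pool.Agent.NPC Pool.Agent.H673R2 Pool.Agent.H673R2.Ts Pool.Agent.W312.TP

/-- (1) There is a polynomial-time algorithm which, given a connected path graph by its number of
vertices and its list of edges, decides whether it has a tree 3-spanner. (2) For every fixed
`t ≥ 4`: the set of the connected path graphs with a tree `t`-spanner is in `NP` and `NP`-hard, and
moreover every problem in `NP` is reducible to TREE `t`-SPANNER by a polynomial-time reduction which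
only produces connected path graphs. -/
theorem result :
    (∃ A : List Bool → List Bool, PolyTime A ∧ ∀ I : Inst, Valid I → IsPathGraph (graphOf I) →
      (HasTreeSpanner 3 I → A (bits I) = [true]) ∧
        (¬ HasTreeSpanner 3 I → A (bits I) = [false])) ∧
    ∀ t : ℕ, 4 ≤ t →
      InNPP (fun I : Inst => (Valid I ∧ IsPathGraph (graphOf I)) ∧ HasTreeSpanner t I) ∧
      NPHardP (fun I : Inst => (Valid I ∧ IsPathGraph (graphOf I)) ∧ HasTreeSpanner t I) ∧
      NPHardOn (fun I : Inst => Valid I ∧ IsPathGraph (graphOf I)) (HasTreeSpanner t) := by
  refine ⟨poly_path, fun t ht => ⟨?_, hard_lang (hard_path ht), hard_path ht⟩⟩
  have h := np_path t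
  have h1 : (fun I : Inst => Valid I ∧ IsPathGraph (graphOf I) ∧ HasTreeSpanner t I) =
      fun I : Inst => (Valid I ∧ IsPathGraph (graphOf I)) ∧ HasTreeSpanner t I := by
    funext I
    rw [and_assoc]
  rwa [h1] at h

end Pool.Agent.Results.MP_b5064f_lc.PathGraphComplexity
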